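import Pool.Agent.H.MP_d3d931_al.Cube

set_option autoImplicit false

namespace Pool.Agent.H.MP_d3d931_al

universe u

variable {S : Type u} [Semigroup S]

inductive N (r : S → S → Prop) : S → S → S → S → Prop
  | g1 (a b : S) : N r a a b b
  | g2 (a b : S) : r a b → N r a b a b
  | mul {a b c d a' b' c' d' : S} : N r a b c d → N r a' b' c' d' →
      N r (a * a') (b * b') (c * c') (d * d')

def Step (r r' : S → S → Prop) : Prop :=
  ∀ a b c d, N r a b c d → (r' a b → r' c d) ∧ (r' a c → r' b d)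

structure IsC (r : S → S → Prop) : Prop where
  refl : ∀ a, r a a
  symm : ∀ {a b}, r a b → r b a
  trans : ∀ {a b c}, r a b → r b c → r a c
  ml : ∀ {a b} (c), r a b → r (c * a) (c * b)
  mr : ∀ {a b} (c), r a b → r (a * c) (b * c)

lemma IsC.mul {r : S → S → Prop} (h : IsC r) {a b c d : S} (h1 : r a b) (h2 : r c d) :
    r (a * c) (b * d) := h.trans (h.mr c h1) (h.ml b h2)

def IsC.con {r : S → S → Prop} (h : IsC r) : Con S where
  r := r
  iseqv := ⟨h.refl, h.symm, h.trans⟩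
  mul' := h.mul

lemma isC_con (c : Con S) : IsC fun a b => c a b :=
  ⟨c.refl, c.symm, c.trans, fun x h => c.mul (c.refl x) h, fun x h => c.mul h (c.refl x)⟩

lemma N.rows {r : S → S → Prop} (h : IsC r) {a b c d : S} (hN : N r a b c d) : r a b ∧ r c d := by
  induction hN with
  | g1 a b => exact ⟨h.refl _, h.refl _⟩
  | g2 a b h1 => exact ⟨h1, h1⟩
  | mul _ _ h1 h2 => exact ⟨h.mul h1.1 h2.1, h.mul h1.2 h2.2⟩

inductive Reach : (S → S → Prop) → Prop
  | top : Reach fun _ _ => True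
  | step {r r0 r'} : Reach r → (∀ a b, r a b → r0 a b) → IsC r' → Step r0 r' → Reach r'
  | inter {r r'} : Reach r → Reach r' → Reach fun a b => r a b ∧ r' a b

lemma left_le {k : ℕ} {r r' : S → S → Prop} (h : ∀ a b, leftSeries S k a b → r a b) (hc : IsC r')
    (hs : Step r r') : ∀ a b, leftSeries S (k + 1) a b → r' a b := by
  have : leftSeries S (k + 1) ≤ hc.con := by
    refine sInf_le fun x hx h1 => ?_
    have key : N r (x fun _ => false).1 (x fun _ => false).2 (x fun _ => true).1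
        (x fun _ => true).2 := by
      clear h1
      induction hx using Subsemigroup.closure_induction with
      | mem x hx =>
        rcases hx with ⟨i, a, b, -, rfl⟩ | ⟨a, b, hab, rfl⟩
        · exact N.g1 a b
        · exact N.g2 a b (h a b hab)
      | mul x y _ _ h1 h2 => exact h1.mul h2
    exact (hs _ _ _ _ key).1 (h1 _ fun e => by simpa using congrFun e 0)
  exact fun a b hab => this hab

lemma right_le {k : ℕ} {r r' : S → S → Prop} (h : ∀ a b, rightSeries S k a b → r a b) (hc : IsC r')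
    (hs : Step r r') : ∀ a b, rightSeries S (k + 1) a b → r' a b := by
  have : rightSeries S (k + 1) ≤ hc.con := by
    refine sInf_le fun x hx h1 => ?_
    have key : N r (x fun _ => false).1 (x fun _ => true).1 (x fun _ => false).2
        (x fun _ => true).2 := by
      clear h1
      induction hx using Subsemigroup.closure_induction with
      | mem x hx =>
        rcases hx with ⟨i, a, b, hab, rfl⟩ | ⟨a, b, -, rfl⟩
        · obtain rfl : i = 0 := Subsingleton.elim _ _
          exact N.g2 a b (h a b hab)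
        · exact N.g1 a b
      | mul x y _ _ h1 h2 => exact h1.mul h2
    exact (hs _ _ _ _ key).2 (h1 _ fun e => by simpa using congrFun e 0)
  exact fun a b hab => this hab

lemma step_self {r : S → S → Prop} (h : IsC r) : Step r r := fun _ _ _ _ hN =>
  ⟨fun _ => (hN.rows h).2, fun h1 => h.trans (h.symm (hN.rows h).1) (h.trans h1 (hN.rows h).2)⟩

lemma series_anti {k l : ℕ} (h : k ≤ l) (a b : S) :
    (leftSeries S l a b → leftSeries S k a b) ∧ (rightSeries S l a b → rightSeries S k a b) := by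
  induction h with
  | refl => exact ⟨id, id⟩
  | step _ ih =>
    exact ⟨fun h => ih.1 (left_le (fun _ _ => id) (isC_con _) (step_self (isC_con _)) a b h),
      fun h => ih.2 (right_le (fun _ _ => id) (isC_con _) (step_self (isC_con _)) a b h)⟩

lemma Reach.series {r : S → S → Prop} (h : Reach r) :
    ∃ k, (∀ a b, leftSeries S k a b → r a b) ∧ ∀ a b, rightSeries S k a b → r a b := by
  induction h with
  | top => exact ⟨0, fun _ _ _ => trivial, fun _ _ _ => trivial⟩
  | step _ h1 hc hs ih =>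
    obtain ⟨k, h2, h3⟩ := ih
    exact ⟨k + 1, left_le (fun a b h => h1 a b (h2 a b h)) hc hs,
      right_le (fun a b h => h1 a b (h3 a b h)) hc hs⟩
  | inter _ _ ih1 ih2 =>
    obtain ⟨k, h2, h3⟩ := ih1
    obtain ⟨l, h4, h5⟩ := ih2
    exact ⟨k + l, fun a b h => ⟨h2 a b ((series_anti (by omega) a b).1 h),
      h4 a b ((series_anti (by omega) a b).1 h)⟩, fun a b h =>
      ⟨h3 a b ((series_anti (by omega) a b).2 h), h5 a b ((series_anti (by omega) a b).2 h)⟩⟩

open MulOpposite in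
lemma Reach.unop {r : Sᵐᵒᵖ → Sᵐᵒᵖ → Prop} (h : Reach r) : Reach fun a b : S => r (op a) (op b) := by
  induction h with
  | top => exact Reach.top
  | inter _ _ h1 h2 => exact h1.inter h2
  | @step r r0 r' _ h1 hc hs ih =>
    refine ih.step (r0 := fun a b => r0 (op a) (op b)) (fun a b => h1 _ _)
      ⟨fun a => hc.refl _, hc.symm, hc.trans, fun c h => hc.mr (op c) h, fun c h => hc.ml (op c) h⟩
      fun a b c d hN => hs _ _ _ _ ?_
    induction hN with
    | g1 a b => exact N.g1 _ _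
    | g2 a b h => exact N.g2 _ _ h
    | mul _ _ h1 h2 => exact h2.mul h1

lemma step_P {r r' : S → S → Prop} (h : IsC r) (h' : IsC r')
    (hl : ∀ a b c, r a b → r' (c * a) (c * b)) (hr : ∀ a b c, r a b → r' (a * c) (b * c)) :
    Step r r' := by
  intro a b c d hN
  cases hN with
  | g1 => exact ⟨fun _ => h'.refl _, id⟩
  | g2 => exact ⟨id, fun _ => h'.refl _⟩
  | mul h1 h2 =>
    have e1 := h'.trans (hr _ _ _ (h1.rows h).1) (hl _ _ _ (h2.rows h).1)
    have e2 := h'.trans (hr _ _ _ (h1.rows h).2) (hl _ _ _ (h2.rows h).2)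
    exact ⟨fun _ => e2, fun e => h'.trans (h'.symm e1) (h'.trans e e2)⟩

/-- Rees congruences. -/
def rho (k : ℕ) (a b : S) : Prop := a = b ∨ (P k a ∧ P k b)

lemma isC_rho (k : ℕ) : IsC (rho (S := S) k) where
  refl _ := Or.inl rfl
  symm h := h.elim (fun h => Or.inl h.symm) fun h => Or.inr h.symm
  trans := by
    rintro a b c (rfl | h) (rfl | h')
    exacts [Or.inl rfl, Or.inr h', Or.inr h, Or.inr ⟨h.1, h'.2⟩]
  ml c h := h.elim (fun h => Or.inl (by rw [h])) fun h => Or.inr ⟨h.1.left c, h.2.left c⟩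
  mr c h := h.elim (fun h => Or.inl (by rw [h])) fun h => Or.inr ⟨h.1.right c, h.2.right c⟩

lemma reach_rho : ∀ k, Reach (rho (S := S) k)
  | 0 => Reach.top.step (r0 := rho 0) (fun _ _ _ => Or.inr ⟨trivial, trivial⟩) (isC_rho 0)
      (step_self (isC_rho 0))
  | k + 1 => (reach_rho k).step (fun _ _ => id) (isC_rho _) (step_P (isC_rho _) (isC_rho _)
      (fun a b c h => h.elim (fun h => Or.inl (by rw [h]))
        fun h => Or.inr ⟨⟨c, a, rfl, h.1⟩, ⟨c, b, rfl, h.2⟩⟩)
      fun a b c h => h.elim (fun h => Or.inl (by rw [h]))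
        fun h => Or.inr ⟨h.1.succ_right c, h.2.succ_right c⟩)

/-- Annihilator congruences. -/
def theta : ℕ → S → S → Prop
  | 0, a, b => a = b
  | k + 1, a, b => ∀ c, theta k (c * a) (c * b) ∧ theta k (a * c) (b * c)

lemma isC_theta : ∀ k, IsC (theta (S := S) k)
  | 0 => ⟨fun _ => rfl, Eq.symm, Eq.trans, fun c h => congrArg (c * ·) h,
      fun c h => congrArg (· * c) h⟩
  | k + 1 => by
    have h := isC_theta k
    refine ⟨fun a c => ⟨h.refl _, h.refl _⟩, fun e c => ⟨h.symm (e c).1, h.symm (e c).2⟩,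
      fun e e' c => ⟨h.trans (e c).1 (e' c).1, h.trans (e c).2 (e' c).2⟩,
      fun x e c => ⟨h.ml c (e x).1, h.mr c (e x).1⟩, fun x e c => ⟨h.ml c (e x).2, h.mr c (e x).2⟩⟩

lemma reach_theta : ∀ {k : ℕ} {r : S → S → Prop}, Reach r → (∀ a b, r a b → theta k a b) →
    Reach (theta (S := S) 0)
  | 0, _, h, e => h.step e (isC_theta 0) (step_self (isC_theta 0))
  | k + 1, _, h, e => reach_theta (k := k) (h.step e (isC_theta k)
      (step_P (isC_theta _) (isC_theta _) (fun _ _ c h => (h c).1) fun _ _ c h => (h c).2))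
      fun _ _ => id

def KL : ℕ → S → S → Prop
  | 0, a, b => a = b
  | k + 1, a, b => ∀ c, KL k (c * a) (c * b)

def KR : ℕ → S → S → Prop
  | 0, a, b => a = b
  | k + 1, a, b => ∀ c, KR k (a * c) (b * c)

lemma KL.mr : ∀ {k : ℕ} {a b : S}, KL k a b → ∀ c, KL k (a * c) (b * c)
  | 0, _, _, h, c => congrArg (· * c) h
  | _ + 1, _, _, h, c => fun x => by simpa only [mul_assoc] using (h x).mr c

lemma KR.ml : ∀ {k : ℕ} {a b : S}, KR k a b → ∀ c, KR k (c * a) (c * b)
  | 0, _, _, h, c => congrArg (c * ·) h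
  | _ + 1, _, _, h, c => fun x => by simpa only [mul_assoc] using (h x).ml c

lemma theta_of_eq : ∀ (k : ℕ) {a b : S}, a = b → theta k a b := fun k _ _ h =>
  h ▸ (isC_theta k).refl _

lemma theta_of : ∀ (n i j : ℕ) {a b : S}, i + j ≤ n → KL i a b → KR j a b → theta n a b
  | n, 0, _, _, _, _, h, _ => theta_of_eq n h
  | n, _ + 1, 0, _, _, _, _, h => theta_of_eq n h
  | 0, _ + 1, _ + 1, _, _, h, _, _ => by omega
  | n + 1, i + 1, j + 1, _, _, h, h1, h2 => fun c =>
    ⟨theta_of n i (j + 1) (by omega) (h1 c) (h2.ml c), theta_of n (i + 1) j (by omega) (h1.mr c) (h2 c)⟩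

lemma KL_of : ∀ {k : ℕ} {a b : S}, (∀ w, P k w → w * a = w * b) → KL (k + 1) a b
  | 0, _, _, h => fun c => h c trivial
  | _ + 1, _, _, h => fun c => KL_of fun w hw => by
    rw [← mul_assoc, ← mul_assoc]; exact h _ (hw.succ_right c)

lemma KR_of : ∀ {k : ℕ} {a b : S}, (∀ w, P k w → a * w = b * w) → KR (k + 1) a b
  | 0, _, _, h => fun c => h c trivial
  | _ + 1, _, _, h => fun c => KR_of fun w hw => by
    rw [mul_assoc, mul_assoc]; exact h _ ⟨c, w, rfl, hw⟩

def LL (a b : S) : Prop := ∃ u u', u * a = u' * b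

lemma LL.trans {m : ℕ} (h : Nice S m) {a b c : S} (hb : P m b) : LL a b → LL b c → LL a c := by
  rintro ⟨u, u', e⟩ ⟨v, v', e'⟩
  obtain ⟨x, y, e''⟩ := h.oL b hb u' v
  exact ⟨x * u, y * v', by rw [mul_assoc, e, ← mul_assoc, e'', mul_assoc, e', mul_assoc]⟩

lemma LL.symm {a b : S} : LL a b → LL b a := fun ⟨u, u', e⟩ => ⟨u', u, e.symm⟩
lemma LL.mr {a b : S} (c : S) : LL a b → LL (a * c) (b * c) := fun ⟨u, u', e⟩ =>
  ⟨u, u', by rw [← mul_assoc, e, mul_assoc]⟩
lemma LL.absorb (x a : S) : LL (x * a) a := ⟨x, x * x, by rw [mul_assoc]⟩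

def sg : ℕ → S → S → Prop
  | 0, a, b => LL a b
  | k + 1, a, b => ∀ c, sg k (a * c) (b * c)

lemma sg.symm : ∀ {k : ℕ} {a b : S}, sg k a b → sg k b a
  | 0, _, _, h => LL.symm h
  | _ + 1, _, _, h => fun c => (h c).symm

lemma sg.mr : ∀ {k : ℕ} {a b : S}, sg k a b → ∀ c, sg k (a * c) (b * c)
  | 0, _, _, h, c => LL.mr c h
  | _ + 1, _, _, h, c => fun x => (h c).mr x

lemma sg.trans {m : ℕ} (h : Nice S m) : ∀ {k : ℕ} {a b c : S}, P m b → sg k a b → sg k b c → sg k a c
  | 0, _, _, _, hb, h1, h2 => LL.trans h hb h1 h2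
  | _ + 1, _, _, _, hb, h1, h2 => fun x => sg.trans h (hb.right x) (h1 x) (h2 x)

lemma sg.absorb : ∀ (k : ℕ) (x a : S), sg k (x * a) a
  | 0, x, a => LL.absorb x a
  | k + 1, x, a => fun c => by rw [mul_assoc]; exact sg.absorb k x _

lemma sg_of : ∀ {k : ℕ} {a b : S}, (∀ w, P k w → LL (a * w) (b * w)) → sg (k + 1) a b
  | 0, _, _, h => fun c => h c trivial
  | _ + 1, _, _, h => fun c => sg_of fun w hw => by
    rw [mul_assoc, mul_assoc]; exact h _ ⟨c, w, rfl, hw⟩

def sig (m k : ℕ) (a b : S) : Prop := a = b ∨ (P m a ∧ P m b ∧ sg k a b)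

lemma isC_sig {m : ℕ} (h : Nice S m) (k : ℕ) : IsC (sig (S := S) m k) where
  refl _ := Or.inl rfl
  symm h := h.elim (fun h => Or.inl h.symm) fun h => Or.inr ⟨h.2.1, h.1, h.2.2.symm⟩
  trans := by
    rintro a b c (rfl | h1) (rfl | h2)
    exacts [Or.inl rfl, Or.inr h2, Or.inr h1, Or.inr ⟨h1.1, h2.2.1, sg.trans h h1.2.1 h1.2.2 h2.2.2⟩]
  ml c h1 := h1.elim (fun h => Or.inl (by rw [h])) fun h1 => Or.inr ⟨h1.1.left c, h1.2.1.left c,
    sg.trans h h1.1 (sg.absorb _ _ _) (sg.trans h h1.2.1 h1.2.2 (sg.absorb _ _ _).symm)⟩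
  mr c h1 := h1.elim (fun h => Or.inl (by rw [h])) fun h1 => Or.inr ⟨h1.1.right c, h1.2.1.right c,
    h1.2.2.mr c⟩

lemma step_sig {m : ℕ} (h : Nice S m) (k : ℕ) : Step (sig (S := S) m (k + 1)) (sig m k) := by
  have hc := isC_sig h k
  have ab : ∀ x a : S, P m a → sig m k (x * a) a := fun x a ha =>
    Or.inr ⟨ha.left x, ha, sg.absorb _ _ _⟩
  have q1 : ∀ a b c : S, sig m (k + 1) a b → sig m k (a * c) (b * c) := fun a b c h1 =>
    h1.elim (fun h => Or.inl (by rw [h])) fun h1 => Or.inr ⟨h1.1.right c, h1.2.1.right c, h1.2.2 c⟩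
  have key : ∀ a b c d : S, N (sig m (k + 1)) a b c d →
      ((a = b ∧ c = d) ∨ (P m a ∧ P m b ∧ P m c ∧ P m d)) ∧
      (sig m k a b ↔ sig m k c d) ∧ (sig m k a c → sig m k b d) := by
    intro a b c d hN
    induction hN with
    | g1 a b => exact ⟨Or.inl ⟨rfl, rfl⟩, ⟨fun _ => hc.refl _, fun _ => hc.refl _⟩, id⟩
    | g2 a b h1 =>
      exact ⟨h1.elim (fun h => Or.inl ⟨h, h⟩) fun h1 => Or.inr ⟨h1.1, h1.2.1, h1.1, h1.2.1⟩, Iff.rfl,
        fun _ => hc.refl _⟩
    | @mul a b c d a' b' c' d' n1 n2 h1 h2 =>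
      have r1 := n1.rows (isC_sig h _)
      have e1 := q1 _ _ a' r1.1
      have e2 := q1 _ _ c' r1.2
      rcases h2.1 with ⟨rfl, rfl⟩ | ⟨pa, pb, pc, pd⟩
      · refine ⟨h1.1.elim (fun h => Or.inl ⟨by rw [h.1], by rw [h.2]⟩) fun h => Or.inr
          ⟨h.1.right _, h.2.1.right _, h.2.2.1.right _, h.2.2.2.right _⟩,
          ⟨fun _ => e2, fun _ => e1⟩, fun e => hc.trans (hc.symm e1) (hc.trans e e2)⟩
      · have t : ∀ x y s t : S, P m s → P m t → (sig m k (x * s) (y * t) ↔ sig m k s t) :=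
          fun x y s t hs ht => ⟨fun e => hc.trans (hc.symm (ab x s hs)) (hc.trans e (ab y t ht)),
            fun e => hc.trans (ab x s hs) (hc.trans e (hc.symm (ab y t ht)))⟩
        refine ⟨Or.inr ⟨pa.left _, pb.left _, pc.left _, pd.left _⟩, ?_, ?_⟩
        · rw [t _ _ _ _ pa pb, t _ _ _ _ pc pd]; exact h2.2.1
        · rw [t _ _ _ _ pa pc, t _ _ _ _ pb pd]; exact h2.2.2
  exact fun a b c d hN => ⟨(key a b c d hN).2.1.1, (key a b c d hN).2.2⟩

lemma reach_sig {m : ℕ} (h : Nice S m) : Reach (sig (S := S) m 0) := by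
  have : ∀ k, Reach (sig (S := S) m k) → Reach (sig (S := S) m 0) := by
    intro k
    induction k with
    | zero => exact id
    | succ k ih => exact fun h1 => ih (h1.step (fun _ _ => id) (isC_sig h k) (step_sig h k))
  refine this (m + 1) ((reach_rho m).step (fun a b h1 => ?_) (isC_sig h _) (step_self (isC_sig h _)))
  exact h1.elim Or.inl fun h1 => Or.inr ⟨h1.1, h1.2, sg_of fun w hw =>
    LL.trans h hw (LL.absorb _ _) (LL.absorb _ _).symm⟩

end Pool.Agent.H.MP_d3d931_al
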