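import Pool.Agent.H.MP_d3d931_al.Defs

set_option autoImplicit false

namespace Pool.Agent.H.MP_d3d931_al

universe u

inductive Pr (d : ℕ) : ℕ → ((Fin d → Bool) → List Bool × List Bool) → Prop
  | nil : Pr d 0 fun _ => ([], [])
  | A (c : Bool) {T x} : Pr d T x → Pr d (T + 1) fun ε => (c :: (x ε).1, (x ε).2)
  | B (c : Bool) {T x} : Pr d T x → Pr d (T + 1) fun ε => ((x ε).1, c :: (x ε).2)
  | C (i : Fin d) (δ c : Bool) {T x} : Pr d T x →
      Pr d (T + 1) fun ε => if ε i = δ then (c :: (x ε).1, c :: (x ε).2) else x ε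

def ph : List Bool → List Bool
  | [] => []
  | c :: l => c :: (!c) :: ph l

def alt : ℕ → List Bool
  | 0 => []
  | n + 1 => false :: true :: alt n

lemma ph_append (l m : List Bool) : ph (l ++ m) = ph l ++ ph m := by
  induction l with
  | nil => rfl
  | cons c l ih => simp [ph, ih]

lemma ph_length (l : List Bool) : (ph l).length = 2 * l.length := by
  induction l with
  | nil => rfl
  | cons c l ih => simp [ph, ih]; omega

lemma Pr.cast {d T : ℕ} {x y} (h : Pr d T x) (e : ∀ ε, x ε = y ε) : Pr d T y := by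
  rwa [← funext e]

lemma Pr.lift {d T : ℕ} {x} (h : Pr d T x) : ∃ T' β, Pr (d + 1) T' fun ε =>
    if ε 0 = true then (ph (x (Fin.tail ε)).1, ph (x (Fin.tail ε)).2)
    else (alt ((x (Fin.tail ε)).1.length + β), alt ((x (Fin.tail ε)).2.length + β)) := by
  induction h with
  | nil => exact ⟨0, 0, Pr.nil.cast fun ε => by simp [ph, alt]⟩
  | A c _ ih =>
    obtain ⟨T', β, ih⟩ := ih
    cases c
    · refine ⟨_, β, (Pr.A false (Pr.A true ih)).cast fun ε => ?_⟩
      cases ε 0 <;> simp [ph, alt, Nat.add_right_comm _ 1 β]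
    · refine ⟨_, β + 1, (Pr.C 0 false false (Pr.A true (Pr.A false (Pr.C 0 false true ih)))).cast
        fun ε => ?_⟩
      cases ε 0 <;> simp [ph, alt, Nat.add_right_comm _ 1 β, ← Nat.add_assoc]
  | B c _ ih =>
    obtain ⟨T', β, ih⟩ := ih
    cases c
    · refine ⟨_, β, (Pr.B false (Pr.B true ih)).cast fun ε => ?_⟩
      cases ε 0 <;> simp [ph, alt, Nat.add_right_comm _ 1 β]
    · refine ⟨_, β + 1, (Pr.C 0 false false (Pr.B true (Pr.B false (Pr.C 0 false true ih)))).cast
        fun ε => ?_⟩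
      cases ε 0 <;> simp [ph, alt, Nat.add_right_comm _ 1 β, ← Nat.add_assoc]
  | C i δ c _ ih =>
    obtain ⟨T', β, ih⟩ := ih
    cases c
    · refine ⟨_, β, (Pr.C i.succ δ false (Pr.C i.succ δ true ih)).cast fun ε => ?_⟩
      by_cases h : ε i.succ = δ <;> cases ε 0 <;>
        simp [ph, alt, Nat.add_right_comm _ 1 β, Fin.tail, h]
    · refine ⟨_, β + 1, (Pr.C 0 false false (Pr.C i.succ δ true (Pr.C i.succ δ false
        (Pr.C 0 false true ih)))).cast fun ε => ?_⟩
      by_cases h : ε i.succ = δ <;> cases ε 0 <;>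
        simp [ph, alt, Nat.add_right_comm _ 1 β, ← Nat.add_assoc, Fin.tail, h]

lemma exists_prog (d : ℕ) : ∃ T x, Pr d T x ∧
    (∀ ε, (x ε).1.length = (x ε).2.length) ∧
    (∀ ε, ε ≠ (fun _ => true) → (x ε).1 = (x ε).2) ∧
    (∃ p q, (x fun _ => true).1 = false :: p ∧ (x fun _ => true).2 = true :: q) ∧
    (∃ p q c, (x fun _ => true).1 = p ++ [c] ∧ (x fun _ => true).2 = q ++ [!c]) := by
  induction d with
  | zero =>
    refine ⟨_, _, Pr.A false (Pr.B true Pr.nil), by simp, fun ε h => absurd (Subsingleton.elim _ _) h,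
      ⟨[], [], rfl, rfl⟩, ⟨[], [], false, rfl, rfl⟩⟩
  | succ d ih =>
    obtain ⟨T, x, h, hl, he, ⟨p, q, h1, h2⟩, ⟨p', q', c, h3, h4⟩⟩ := ih
    obtain ⟨T', β, h'⟩ := h.lift
    have ht : Fin.tail (fun _ : Fin (d + 1) => true) = fun _ => true := rfl
    refine ⟨T', _, h', fun ε => ?_, fun ε hε => ?_, ?_, ?_⟩
    · cases ε 0 <;> simp [ph_length, hl]
    · cases h0 : ε 0
      · simp [hl]
      · have : Fin.tail ε ≠ fun _ => true := fun h => hε (funext fun i => by
          refine Fin.cases h0 (fun j => congrFun h j) i)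
        simp [he _ this]
    · exact ⟨_, _, by simp [ht, h1, ph]; rfl, by simp [ht, h2, ph]; rfl⟩
    · exact ⟨ph p' ++ [c], ph q' ++ [!c], !c, by simp [ht, h3, ph_append, ph],
        by simp [ht, h4, ph_append, ph]⟩

variable {S : Type u} [Semigroup S]

inductive Cb (d : ℕ) : ((Fin d → Bool) → S × S) → Prop
  | e (i : Fin d) (a b : S) : Cb d fun ε => if ε i = true then (b, b) else (a, a)
  | r (a b : S) : Cb d fun _ => (a, b)
  | mul {x y} : Cb d x → Cb d y → Cb d (x * y)

lemma Cb.cast {d : ℕ} {x y : (Fin d → Bool) → S × S} (h : Cb d x) (e : ∀ ε, x ε = y ε) :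
    Cb d y := by
  rwa [← funext e]

variable (S) in
def SN (d : ℕ) : Prop := ∀ x : (Fin d → Bool) → S × S, Cb d x →
  (∀ ε, ε ≠ (fun _ => true) → (x ε).1 = (x ε).2) → (x fun _ => true).1 = (x fun _ => true).2

def P : ℕ → S → Prop
  | 0, _ => True
  | n + 1, s => ∃ a b, s = a * b ∧ P n b

lemma P.succ_right : ∀ {n : ℕ} {s : S}, P n s → ∀ a, P (n + 1) (s * a)
  | 0, s, _, a => ⟨s, a, rfl, trivial⟩
  | _ + 1, _, ⟨x, y, e, h⟩, a => ⟨x, y * a, by rw [e, mul_assoc], h.succ_right a⟩

lemma P.pred : ∀ {n : ℕ} {s : S}, P (n + 1) s → P n s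
  | 0, _, _ => trivial
  | _ + 1, _, ⟨x, y, e, h⟩ => ⟨x, y, e, h.pred⟩

lemma P.mono {n m : ℕ} {s : S} (h : P m s) (hn : n ≤ m) : P n s := by
  induction hn with
  | refl => exact h
  | step _ ih => exact ih h.pred

lemma P.left {n : ℕ} {s : S} (h : P n s) (a : S) : P n (a * s) := P.pred ⟨a, s, rfl, h⟩
lemma P.right {n : ℕ} {s : S} (h : P n s) (a : S) : P n (s * a) := (h.succ_right a).pred

lemma P.split : ∀ {n k : ℕ} {s : S}, P (k + 1 + n) s → ∃ a b, s = a * b ∧ P n a ∧ P k b
  | 0, _, _, ⟨a, b, e, h⟩ => ⟨a, b, e, trivial, h⟩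
  | n + 1, k, _, ⟨a, b, e, h⟩ => by
    obtain ⟨x, y, e', hx, hy⟩ := P.split (n := n) (k := k) h
    exact ⟨a * x, y, by rw [e, e', mul_assoc], ⟨a, x, rfl, hx⟩, hy⟩

lemma P.op : ∀ {n : ℕ} {s : S}, P n s → P n (MulOpposite.op s)
  | 0, _, _ => trivial
  | _ + 1, _, ⟨a, b, e, h⟩ => by
    rw [e, MulOpposite.op_mul]; exact h.op.succ_right _

lemma P.unop : ∀ {n : ℕ} {s : Sᵐᵒᵖ}, P n s → P n s.unop
  | 0, _, _ => trivial
  | _ + 1, _, ⟨a, b, e, h⟩ => by
    rw [e, MulOpposite.unop_mul]; exact h.unop.succ_right _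

lemma SN.op {d : ℕ} (h : SN S d) : SN Sᵐᵒᵖ d := by
  intro x hx he
  have : Cb d fun ε => ((x ε).1.unop, (x ε).2.unop) := by
    clear he
    induction hx with
    | e i a b => exact (Cb.e i a.unop b.unop).cast fun ε => by cases hε : ε i <;> simp [hε]
    | r a b => exact Cb.r _ _
    | mul _ _ h1 h2 => exact (h2.mul h1).cast fun ε => by simp
  exact MulOpposite.unop_injective (h _ this fun ε hε => by rw [he ε hε])

lemma ex_coe (x y : WithOne S) (s : S) : ∃ t : S, (t : WithOne S) = x * s * y := by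
  induction x using WithOne.recOneCoe <;> induction y using WithOne.recOneCoe
  · exact ⟨s, by simp⟩
  · exact ⟨s * _, by simp; rfl⟩
  · exact ⟨_ * s, by simp; rfl⟩
  · exact ⟨_ * s * _, by simp; rfl⟩

def th (Z : WithOne S) (v : Bool → S) (l : List Bool) : WithOne S := (l.map fun c => Z * v c).prod

lemma pad {d T : ℕ} {x} (h : Pr d T x) (v : Bool → S) (Z : WithOne S) :
    ∀ (u : WithOne S) (r : S), P T r → Z = u * r → ∃ y : (Fin d → Bool) → S × S, Cb d y ∧
      ∀ ε, u * (y ε).1 = th Z v (x ε).1 * Z ∧ u * (y ε).2 = th Z v (x ε).2 * Z := by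
  induction h with
  | nil => exact fun u r _ e => ⟨_, Cb.r r r, fun ε => by simp [th, e]⟩
  | A c _ ih =>
    rintro u _ ⟨z, r, rfl, hr⟩ e
    obtain ⟨y, hy, h⟩ := ih (u * z) r hr (by simp [e, mul_assoc])
    obtain ⟨t, ht⟩ := ex_coe (z * r : S) (u * (z : WithOne S)) (v c)
    refine ⟨_, (Cb.r t z).mul hy, fun ε => ⟨?_, ?_⟩⟩
    · simp only [th, List.map_cons, List.prod_cons, mul_assoc]
      rw [← th, ← (h ε).1, e]; simp [ht, mul_assoc]
    · rw [← (h ε).2]; simp [mul_assoc]
  | B c _ ih =>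
    rintro u _ ⟨z, r, rfl, hr⟩ e
    obtain ⟨y, hy, h⟩ := ih (u * z) r hr (by simp [e, mul_assoc])
    obtain ⟨t, ht⟩ := ex_coe (z * r : S) (u * (z : WithOne S)) (v c)
    refine ⟨_, (Cb.r z t).mul hy, fun ε => ⟨?_, ?_⟩⟩
    · rw [← (h ε).1]; simp [mul_assoc]
    · simp only [th, List.map_cons, List.prod_cons, mul_assoc]
      rw [← th, ← (h ε).2, e]; simp [ht, mul_assoc]
  | C i δ c _ ih =>
    rintro u _ ⟨z, r, rfl, hr⟩ e
    obtain ⟨y, hy, h⟩ := ih (u * z) r hr (by simp [e, mul_assoc])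
    obtain ⟨t, ht⟩ := ex_coe (z * r : S) (u * (z : WithOne S)) (v c)
    have hg : Cb d fun ε => if ε i = δ then (t, t) else (z, z) := by
      cases δ
      · exact (Cb.e i t z).cast fun ε => by cases ε i <;> simp
      · exact Cb.e i z t
    refine ⟨_, hg.mul hy, fun ε => ?_⟩
    by_cases hε : ε i = δ
    · simp only [th, List.map_cons, List.prod_cons, mul_assoc, hε, if_true]
      rw [← th, ← th, ← (h ε).1, ← (h ε).2, e]; simp [ht, mul_assoc, hε]
    · simp only [hε, if_false]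
      rw [← (h ε).1, ← (h ε).2]; simp [mul_assoc, hε]

lemma ore {d : ℕ} (h : SN S d) : ∃ T, ∀ e : S, P T e → ∀ a b : S,
    (∃ u u' : S, u * a * e = u' * b * e) ∧ (∃ u u' : S, e * a * u = e * b * u') := by
  obtain ⟨T, x, hx, -, he, ⟨p, q, h1, h2⟩, ⟨p', q', c, h3, h4⟩⟩ := exists_prog d
  have key : ∀ e : S, P T e → ∀ v : Bool → S,
      th e v (x fun _ => true).1 * e = th e v (x fun _ => true).2 * e := by
    intro e hP v
    obtain ⟨y, hy, hh⟩ := pad hx v e 1 e hP (by simp)
    have := h y hy fun ε hε => by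
      have := (hh ε).1.trans ((he ε hε) ▸ (hh ε).2.symm)
      simpa using this
    rw [← (hh _).1, ← (hh _).2, this]
  refine ⟨T, fun e hP a b => ⟨?_, ?_⟩⟩
  · have := key e hP fun t => if t = c then a else b
    rw [h3, h4] at this
    obtain ⟨u, hu⟩ := ex_coe (th e (fun t => if t = c then a else b) p') 1 e
    obtain ⟨u', hu'⟩ := ex_coe (th e (fun t => if t = c then a else b) q') 1 e
    refine ⟨u, u', WithOne.coe_injective ?_⟩
    simpa [hu, hu', th, mul_assoc] using this
  · have := key e hP fun t => if t = false then a else b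
    rw [h1, h2] at this
    obtain ⟨u, hu⟩ := ex_coe (th e (fun t => if t = false then a else b) p) 1 e
    obtain ⟨u', hu'⟩ := ex_coe (th e (fun t => if t = false then a else b) q) 1 e
    refine ⟨u, u', WithOne.coe_injective ?_⟩
    simpa [hu, hu', th, mul_assoc] using this

lemma cancel0 {d : ℕ} (h : SN S d) {e : S} (ho : ∀ a b : S, ∃ u u' : S, u * a * e = u' * b * e)
    {p b c w : S} (hp : p * e * b = p * e * c) (hw : P d w) : w * e * b = w * e * c := by
  have key : ∀ k, k ≤ d → ∀ w : S, P k w → ∃ x : (Fin d → Bool) → S,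
      Cb d (fun ε => (x ε * b, x ε * c)) ∧ ∀ ε, ((∀ i : Fin d, i.1 < k → ε i = true) → x ε = w * e) ∧
        ((∃ i : Fin d, i.1 < k ∧ ε i = false) → x ε * b = x ε * c) := by
    intro k
    induction k with
    | zero => exact fun _ w _ => ⟨fun _ => w * e, Cb.r _ _, fun ε => ⟨fun _ => rfl, by simp⟩⟩
    | succ k ih =>
      rintro hk _ ⟨q, w, rfl, hw⟩
      obtain ⟨x, hx, hh⟩ := ih (by omega) w hw
      obtain ⟨u, u', hu⟩ := ho p w
      refine ⟨fun ε => (if ε ⟨k, hk⟩ = true then q else u') * x ε,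
        ((Cb.e ⟨k, hk⟩ u' q).mul hx).cast fun ε => by cases hε : ε ⟨k, hk⟩ <;> simp [hε, mul_assoc],
        fun ε => ⟨fun h1 => ?_, ?_⟩⟩
      · simp [h1 ⟨k, hk⟩ (by simp), (hh ε).1 fun i hi => h1 i (by omega), mul_assoc]
      · rintro ⟨i, hi, hε⟩
        by_cases h2 : ∃ i : Fin d, i.1 < k ∧ ε i = false
        · simp only [mul_assoc, (hh ε).2 h2]
        · have h3 : ε ⟨k, hk⟩ = false := by
            have : i = ⟨k, hk⟩ := by
              by_contra hne
              exact h2 ⟨i, by have : i.1 ≠ k := fun h => hne (Fin.ext h); omega, hε⟩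
            rwa [← this]
          have h4 := (hh ε).1 fun j hj => by
            by_contra h5
            exact h2 ⟨j, hj, by simpa using h5⟩
          simp only [h3, h4, Bool.false_eq_true, if_false]
          rw [← mul_assoc, ← hu, mul_assoc u, mul_assoc u, mul_assoc u, hp]
  obtain ⟨x, hx, hh⟩ := key d le_rfl w hw
  have := h _ hx fun ε hε => (hh ε).2 (by
    by_contra h1
    exact hε (funext fun i => by
      by_contra h2
      exact h1 ⟨i, i.2, by simpa using h2⟩))
  simpa [(hh _).1 fun _ _ => rfl] using this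

structure Nice (S : Type u) [Semigroup S] (m : ℕ) : Prop where
  oL : ∀ e : S, P m e → ∀ a b : S, ∃ u u' : S, u * a * e = u' * b * e
  oR : ∀ e : S, P m e → ∀ a b : S, ∃ u u' : S, e * a * u = e * b * u'
  cL : ∀ w : S, P m w → ∀ p b c : S, p * w * b = p * w * c → w * b = w * c
  cR : ∀ w : S, P m w → ∀ p b c : S, b * w * p = c * w * p → b * w = c * w

lemma Nice.op {m : ℕ} (h : Nice S m) : Nice Sᵐᵒᵖ m where
  oL e he a b := by
    obtain ⟨u, u', hu⟩ := h.oR _ he.unop a.unop b.unop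
    exact ⟨.op u, .op u', MulOpposite.unop_injective (by simpa [mul_assoc] using hu)⟩
  oR e he a b := by
    obtain ⟨u, u', hu⟩ := h.oL _ he.unop a.unop b.unop
    exact ⟨.op u, .op u', MulOpposite.unop_injective (by simpa [mul_assoc] using hu)⟩
  cL w hw p b c e := MulOpposite.unop_injective (by
    simpa using h.cR _ hw.unop p.unop b.unop c.unop
      (by simpa [mul_assoc] using congrArg MulOpposite.unop e))
  cR w hw p b c e := MulOpposite.unop_injective (by
    simpa using h.cL _ hw.unop p.unop b.unop c.unop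
      (by simpa [mul_assoc] using congrArg MulOpposite.unop e))

lemma nice {d : ℕ} (h : SN S d) : ∃ m, Nice S m := by
  obtain ⟨T, hT⟩ := ore h
  refine ⟨T + 1 + d, fun e he a b => (hT e (he.mono (by omega)) a b).1,
    fun e he a b => (hT e (he.mono (by omega)) a b).2, ?_, ?_⟩
  · intro w hw p b c e
    obtain ⟨x, y, rfl, hx, hy⟩ := hw.split
    exact cancel0 h (fun a b => (hT y hy a b).1) (p := p * x) (by simpa [mul_assoc] using e) hx
  · intro w hw p b c e
    obtain ⟨x, y, rfl, hx, hy⟩ := P.split (n := T) (k := d) (hw.mono (by omega))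
    have := cancel0 h.op (e := .op x) (fun a b => by
      obtain ⟨u, u', hu⟩ := (hT x hx a.unop b.unop).2
      exact ⟨.op u, .op u', MulOpposite.unop_injective (by simpa [mul_assoc] using hu)⟩)
      (p := .op (y * p)) (b := .op b) (c := .op c) (w := .op y)
      (MulOpposite.unop_injective (by simpa [mul_assoc] using e)) hy.op
    simpa [mul_assoc] using congrArg MulOpposite.unop this

end Pool.Agent.H.MP_d3d931_al
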