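import Mathlib

set_option autoImplicit false

namespace Pool.Agent.H.MP_d3d931_al

universe u

variable {S : Type u} [Semigroup S]

/-- The subalgebra `M(α_1, …, α_{n+1})` of `2^n × 2` matrices. -/
def mat {n : ℕ} (α : Fin (n + 1) → Con S) : Subsemigroup ((Fin n → Bool) → S × S) :=
  Subsemigroup.closure
    ({x | ∃ (i : Fin n) (a b : S), α i.castSucc a b ∧
        x = fun ε => if ε i = true then (b, b) else (a, a)} ∪
      {x | ∃ a b : S, α (Fin.last n) a b ∧ x = fun _ => (a, b)})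

/-- The higher commutator `[α_1, …, α_{n+1}]`. -/
def hcomm {n : ℕ} (α : Fin (n + 1) → Con S) : Con S :=
  sInf {δ : Con S | ∀ x ∈ mat α,
    (∀ ε : Fin n → Bool, ε ≠ (fun _ => true) → δ (x ε).1 (x ε).2) →
      δ (x fun _ => true).1 (x fun _ => true).2}

/-- `[1, [1, …, [1, 1] …]]` with `k + 1` copies of `1`. -/
def leftSeries (S : Type u) [Semigroup S] : ℕ → Con S
  | 0 => ⊤
  | k + 1 => hcomm ![⊤, leftSeries S k]

/-- `[… [[1, 1], 1], …, 1]` with `k + 1` copies of `1`. -/
def rightSeries (S : Type u) [Semigroup S] : ℕ → Con S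
  | 0 => ⊤
  | k + 1 => hcomm ![rightSeries S k, ⊤]

end Pool.Agent.H.MP_d3d931_al
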