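import Pool.Agent.H.MP_d3d931_al.Chain

set_option autoImplicit false

namespace Pool.Agent.H.MP_d3d931_al

universe u

open OreLocalization in
lemma frac {A : Type u} [Semigroup A] (z : A) (hl : ∀ a b c : A, a * b = a * c → b = c)
    (hr : ∀ a b c : A, b * a = c * a → b = c) (ho : ∀ a b : A, ∃ u v, u * a = v * b) :
    ∃ (G : Type u) (_ : Group G) (ι : A → G), (∀ a b, ι (a * b) = ι a * ι b) ∧
      Function.Injective ι ∧ ∀ g : G, ∃ a b, ι a * g = ι b := by
  have ho' : ∀ (r : WithOne A) (s : (⊤ : Submonoid (WithOne A))),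
      ∃ p : WithOne A × (⊤ : Submonoid (WithOne A)), p.2 * r = p.1 * s := by
    rintro r ⟨s, hs⟩
    obtain ⟨a, ha⟩ := ex_coe 1 r z
    obtain ⟨b, hb⟩ := ex_coe 1 s z
    obtain ⟨u, v, h⟩ := ho a b
    refine ⟨((v * z : A), ⟨(u * z : A), trivial⟩), ?_⟩
    have := congrArg (fun t : A => (t : WithOne A)) h
    simpa [ha, hb, mul_assoc] using this
  choose p hp using ho'
  letI : OreSet (⊤ : Submonoid (WithOne A)) :=
    { ore_right_cancel := by
        rintro r₁ r₂ ⟨s, hs⟩ h
        obtain ⟨a, ha⟩ := ex_coe 1 r₁ z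
        obtain ⟨b, hb⟩ := ex_coe 1 r₂ z
        obtain ⟨c, hc⟩ := ex_coe s 1 z
        refine ⟨⟨z, trivial⟩, ?_⟩
        have : a = b := hr c a b (WithOne.coe_injective (by
          simp only [WithOne.coe_mul, ha, hb, hc, one_mul, mul_one, mul_assoc]
          rw [← mul_assoc r₁, ← mul_assoc r₂]
          exact congrArg (fun t => (z : WithOne A) * (t * z)) h))
        simpa [ha, hb] using congrArg (fun t : A => (t : WithOne A)) this
      oreNum := fun r s => (p r s).1
      oreDenom := fun r s => (p r s).2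
      ore_eq := hp }
  refine ⟨((WithOne A)[(⊤ : Submonoid (WithOne A))⁻¹])ˣ, inferInstance,
    fun a => numeratorUnit ⟨a, trivial⟩, fun a b => Units.ext ?_, fun a b h => ?_, fun g => ?_⟩
  · simp [numeratorUnit]
  · have h1 := congrArg Units.val h
    simp only [numeratorUnit] at h1
    obtain ⟨u, v, h2, h3⟩ := oreDiv_eq_iff.1 h1
    obtain ⟨c, hc⟩ := ex_coe 1 v z
    have h4 : (u : WithOne A) = v := by simpa using h3
    refine hl c a b (WithOne.coe_injective ?_)
    have h5 : v * (b : WithOne A) = v * a := by rw [← h4]; nth_rewrite 2 [h4]; exact h2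
    simp [hc, mul_assoc, h5]
  · obtain ⟨g, g', h1, h2⟩ := g
    induction g with
    | c r s =>
      obtain ⟨a, ha⟩ := ex_coe 1 r z
      obtain ⟨b, hb⟩ := ex_coe 1 s z
      refine ⟨b, a, Units.ext ?_⟩
      simp [numeratorUnit, ha, hb]

lemma SN.group {A G : Type u} [Semigroup A] [Group G] {d : ℕ} (h : SN A d) (z : A) (ι : A → G)
    (hm : ∀ a b, ι (a * b) = ι a * ι b) (hi : Function.Injective ι)
    (ho : ∀ a b : A, ∃ u v, u * a = v * b) (hg : ∀ g : G, ∃ a b, ι a * g = ι b) : SN G d := by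
  have two : ∀ p q : G, ∃ c a b, ι c * p = ι a ∧ ι c * q = ι b := by
    intro p q
    obtain ⟨a, b, e⟩ := hg p
    obtain ⟨a', b', e'⟩ := hg q
    obtain ⟨u, v, e''⟩ := ho a a'
    exact ⟨u * a, u * b, v * b', by rw [hm, hm, mul_assoc, e], by rw [e'', hm, hm, mul_assoc, e']⟩
  have key : ∀ x : (Fin d → Bool) → G × G, Cb d x → ∀ c0 : A, ∃ (c1 : A) (y : (Fin d → Bool) → A × A),
      Cb d y ∧ ∀ ε, ι c1 * (x ε).1 = ι (y ε).1 * ι c0 ∧ ι c1 * (x ε).2 = ι (y ε).2 * ι c0 := by
    intro x hx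
    induction hx with
    | e i p q =>
      intro c0
      obtain ⟨c, a, b, e1, e2⟩ := two (p * (ι c0)⁻¹) (q * (ι c0)⁻¹)
      exact ⟨c, _, Cb.e i a b, fun ε => by cases hε : ε i <;> simp [hε, ← e1, ← e2, mul_assoc]⟩
    | r p q =>
      intro c0
      obtain ⟨c, a, b, e1, e2⟩ := two (p * (ι c0)⁻¹) (q * (ι c0)⁻¹)
      exact ⟨c, _, Cb.r a b, fun ε => by simp [← e1, ← e2, mul_assoc]⟩
    | mul _ _ h1 h2 =>
      intro c0
      obtain ⟨c1, y, hy, e⟩ := h2 c0
      obtain ⟨c2, y', hy', e'⟩ := h1 c1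
      refine ⟨c2, _, hy'.mul hy, fun ε => ⟨?_, ?_⟩⟩
      · simp only [Pi.mul_apply, Prod.fst_mul, hm]
        rw [← mul_assoc, (e' ε).1, mul_assoc, (e ε).1, mul_assoc]
      · simp only [Pi.mul_apply, Prod.snd_mul, hm]
        rw [← mul_assoc, (e' ε).2, mul_assoc, (e ε).2, mul_assoc]
  intro x hx he
  obtain ⟨c, y, hy, e⟩ := key x hx z
  have := h y hy fun ε hε => hi (mul_right_cancel (b := ι z) (by rw [← (e ε).1, ← (e ε).2, he ε hε]))
  exact mul_left_cancel (a := ι c) (by rw [(e _).1, (e _).2, this])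

lemma Cb.inv {G : Type u} [Group G] {d : ℕ} {x : (Fin d → Bool) → G × G} (h : Cb d x) :
    Cb d x⁻¹ := by
  induction h with
  | e i a b => exact (Cb.e i a⁻¹ b⁻¹).cast fun ε => by cases hε : ε i <;> simp [hε]
  | r a b => exact Cb.r _ _
  | mul _ _ h1 h2 => rw [mul_inv_rev]; exact h2.mul h1

lemma SN.nilp {G : Type u} [Group G] {d : ℕ} (h : SN G d) (g : G) :
    g ∈ Subgroup.upperCentralSeries G d := by
  have key : ∀ k j, j + k = d → ∀ x : (Fin d → Bool) → G, Cb d (fun ε => (x ε, 1)) →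
      (∀ ε, (∃ i : Fin d, i.1 < j ∧ ε i = false) → x ε = 1) →
      x (fun _ => true) ∈ Subgroup.upperCentralSeries G k := by
    intro k
    induction k with
    | zero =>
      intro j hj x hx he
      have := h _ hx fun ε hε => he ε (by
        by_contra h1
        exact hε (funext fun i => by
          by_contra h2
          exact h1 ⟨i, by omega, by simpa using h2⟩))
      simpa using this
    | succ k ih =>
      intro j hj x hx he
      rw [Subgroup.mem_upperCentralSeries_succ_iff]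
      intro y
      have hj' : j < d := by omega
      have hy := Cb.e (d := d) ⟨j, hj'⟩ 1 y
      have := ih (j + 1) (by omega)
        (fun ε => x ε * (if ε ⟨j, hj'⟩ = true then y else 1) * (x ε)⁻¹ *
          (if ε ⟨j, hj'⟩ = true then y else 1)⁻¹)
        ((((hx.mul hy).mul hx.inv).mul hy.inv).cast fun ε => by
          cases hε : ε ⟨j, hj'⟩ <;> simp [hε]) (by
          rintro ε ⟨i, hi, hε⟩
          by_cases h2 : i.1 < j
          · simp [he ε ⟨i, h2, hε⟩]
          · have : i = ⟨j, hj'⟩ := Fin.ext (by simp; omega)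
            simp [← this, hε])
      simpa [commutatorElement_def] using this
  exact key d 0 (by omega) (fun _ => g) (Cb.r g 1) (by simp)

variable {S : Type u} [Semigroup S]

lemma SN.sub {d : ℕ} (h : SN S d) (A : Subsemigroup S) : SN A d := by
  intro x hx he
  have : Cb d fun ε => (((x ε).1 : S), ((x ε).2 : S)) := by
    clear he
    induction hx with
    | e i a b => exact (Cb.e i (a : S) b).cast fun ε => by cases hε : ε i <;> simp [hε]
    | r a b => exact Cb.r _ _
    | mul _ _ h1 h2 => exact (h1.mul h2).cast fun ε => by simp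
  exact Subtype.ext (h _ this fun ε hε => by rw [he ε hε])

def AA (f : S) : Subsemigroup S where
  carrier := {s | (∃ x, s = f * x) ∧ ∃ y, s = y * f}
  mul_mem' := by
    rintro a b ⟨⟨x, rfl⟩, -⟩ ⟨-, y, rfl⟩
    exact ⟨⟨_, mul_assoc _ _ _⟩, _, (mul_assoc _ _ _).symm⟩

def FF (f s : S) : AA f := ⟨f * s * f, ⟨_, mul_assoc _ _ _⟩, _, rfl⟩

def eta (m : ℕ) (a b : S) : Prop := sig m 0 a b ∧ sig m 0 (MulOpposite.op a) (MulOpposite.op b)

lemma isC_eta {m : ℕ} (h : Nice S m) : IsC (eta (S := S) m) :=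
  have h1 := isC_sig h 0
  have h2 := isC_sig h.op 0
  ⟨fun _ => ⟨h1.refl _, h2.refl _⟩, fun e => ⟨h1.symm e.1, h2.symm e.2⟩,
    fun e e' => ⟨h1.trans e.1 e'.1, h2.trans e.2 e'.2⟩,
    fun c e => ⟨h1.ml c e.1, h2.mr (.op c) e.2⟩, fun c e => ⟨h1.mr c e.1, h2.ml (.op c) e.2⟩⟩

lemma exR {m : ℕ} (h : Nice S m) (f : S) {a b : S} (e : eta m a b) :
    ∃ x y, a * (f * FF f x) = b * (f * FF f y) := by
  rcases e.2 with e | ⟨pa, pb, u, v, e⟩
  · exact ⟨f, f, by rw [MulOpposite.op_injective e]⟩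
  · have e' : a * u.unop = b * v.unop := by simpa using congrArg MulOpposite.unop e
    obtain ⟨x, y, e1⟩ := h.oR a pa.unop (f * f) u.unop
    obtain ⟨x', y', e2⟩ := h.oR b pb.unop (v.unop * y) (f * f)
    refine ⟨x * x', y', ?_⟩
    have : a * (f * f) * x * x' * f = b * (f * f) * y' * f := by
      rw [e1, e', ← e2, mul_assoc b v.unop y]
    simpa [FF, mul_assoc] using this

lemma exL {m : ℕ} (h : Nice S m) (f : S) {a b : S} (e : eta m a b) :
    ∃ x y, (FF f x : S) * f * a = (FF f y : S) * f * b := by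
  rcases e.1 with e | ⟨pa, pb, u, v, e⟩
  · exact ⟨f, f, by rw [e]⟩
  · obtain ⟨x, y, e1⟩ := h.oL a pa (f * f) u
    obtain ⟨x', y', e2⟩ := h.oL b pb (y * v) (f * f)
    refine ⟨x' * x, y', ?_⟩
    have : f * (x' * (x * (f * f) * a)) = f * (y' * (f * f) * b) := by
      rw [e1, mul_assoc y, e, ← e2]; simp [mul_assoc]
    simpa [FF, mul_assoc] using this

lemma fin_left {m : ℕ} (h : Nice S m) {f a b : S} (e : sig m 0 a b)
    (hF : ∀ u, f * u * (a * f) = f * u * (b * f)) (w : S) (hw : P m w) : w * a = w * b := by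
  rcases e with rfl | ⟨pa, pb, u, v, e⟩
  · rfl
  · have k1 : ∀ w, P m w → w * a * f = w * b * f := fun w hw => by
      simpa [mul_assoc] using h.cL w hw f _ _ (hF w)
    obtain ⟨p, p', e1⟩ := h.oL b pb w v
    have e2 : w * p * w * b = w * p' * u * a := by
      rw [mul_assoc w p w, mul_assoc w, e1, mul_assoc p', ← e]; simp [mul_assoc]
    have e3 := k1 (w * p * w) (hw.left _)
    rw [e2] at e3
    have e4 := h.cR a pa f _ _ e3
    rw [← e2] at e4
    exact h.cL w hw _ _ _ e4

theorem reach_eq {d : ℕ} (h : SN S d) (z : S) : Reach (theta (S := S) 0) := by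
  obtain ⟨m, hn⟩ := nice h
  obtain ⟨f, hf⟩ : ∃ f : S, P m f := by
    clear hn
    induction m with
    | zero => exact ⟨z, trivial⟩
    | succ m ih => exact ih.elim fun f hf => ⟨_, hf.succ_right z⟩
  have ho : ∀ a b : AA f, ∃ u v, u * a = v * b := by
    rintro ⟨a, ha, x, rfl⟩ ⟨b, hb, y, rfl⟩
    obtain ⟨u, v, e⟩ := hn.oL f hf (f * x) (f * y)
    exact ⟨FF f u, FF f v, Subtype.ext (by simpa [FF, mul_assoc] using congrArg (f * ·) e)⟩
  obtain ⟨G, _, ι, hm, hi, hg⟩ := frac (FF f f) (by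
    rintro ⟨a, ha⟩ ⟨b, ⟨x, rfl⟩, hb⟩ ⟨c, ⟨y, rfl⟩, hc⟩ e
    exact Subtype.ext (hn.cL f hf a _ _ (by simpa [mul_assoc] using congrArg Subtype.val e))) (by
    rintro ⟨a, ha⟩ ⟨b, hb, x, rfl⟩ ⟨c, hc, y, rfl⟩ e
    exact Subtype.ext (hn.cR f hf a _ _ (by simpa [mul_assoc] using congrArg Subtype.val e))) ho
  have hG := ((h.sub (AA f)).group (FF f f) ι hm hi ho hg).nilp
  have he := isC_eta hn
  obtain ⟨D, hD⟩ : ∃ D : S → S → G, ∀ a b, D a b = (ι (FF f a))⁻¹ * ι (FF f b) :=
    ⟨_, fun _ _ => rfl⟩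
  have dl : ∀ a b u, eta m a b → D (u * a) (u * b) = D a b := by
    intro a b u e
    obtain ⟨x, y, e1⟩ := exR hn f e
    have t1 : ι (FF f a) * ι (FF f x) = ι (FF f b) * ι (FF f y) := by
      rw [← hm, ← hm]; congr 1
      exact Subtype.ext (by simpa [FF, mul_assoc] using congrArg (f * ·) e1)
    have t2 : ι (FF f (u * a)) * ι (FF f x) = ι (FF f (u * b)) * ι (FF f y) := by
      rw [← hm, ← hm]; congr 1
      exact Subtype.ext (by simpa [FF, mul_assoc] using congrArg (f * u * ·) e1)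
    simp only [hD]
    rw [← mul_inv_eq_iff_eq_mul.2 t1, ← mul_inv_eq_iff_eq_mul.2 t2]; group
  have dr : ∀ a b v, eta m a b → ∃ g : G, D (a * v) (b * v) = g * D a b * g⁻¹ := by
    intro a b v e
    obtain ⟨x, y, e1⟩ := exL hn f e
    have t1 : ι (FF f x) * ι (FF f a) = ι (FF f y) * ι (FF f b) := by
      rw [← hm, ← hm]; congr 1
      exact Subtype.ext (by simpa [FF, mul_assoc] using congrArg (· * f) e1)
    have t2 : ι (FF f x) * ι (FF f (a * v)) = ι (FF f y) * ι (FF f (b * v)) := by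
      rw [← hm, ← hm]; congr 1
      exact Subtype.ext (by simpa [FF, mul_assoc] using congrArg (· * v * f) e1)
    refine ⟨(ι (FF f (a * v)))⁻¹ * ι (FF f a), ?_⟩
    simp only [hD]
    rw [← inv_mul_eq_iff_eq_mul.2 t1, ← inv_mul_eq_iff_eq_mul.2 t2]; group
  have dt : ∀ a b c, D a c = D a b * D b c := fun a b c => by simp only [hD]; group
  have ds : ∀ a b, D b a = (D a b)⁻¹ := fun a b => by simp only [hD]; group
  have d0 : ∀ a, D a a = 1 := fun a => by simp only [hD]; group
  let gam : ℕ → S → S → Prop := fun j a b => eta m a b ∧ D a b ∈ Subgroup.upperCentralSeries G j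
  have hc : ∀ j, IsC (gam j) := fun j =>
    ⟨fun a => ⟨he.refl a, d0 a ▸ one_mem _⟩, fun e => ⟨he.symm e.1, ds _ _ ▸ inv_mem e.2⟩,
      fun e e' => ⟨he.trans e.1 e'.1, dt _ _ _ ▸ mul_mem e.2 e'.2⟩,
      fun c e => ⟨he.ml c e.1, (dl _ _ c e.1).symm ▸ e.2⟩, fun c e => ⟨he.mr c e.1, by
        obtain ⟨g, hg⟩ := dr _ _ c e.1
        rw [hg]; exact Subgroup.Normal.conj_mem inferInstance _ e.2 g⟩⟩
  have hs : ∀ j, Step (gam (j + 1)) (gam j) := by
    intro j
    let π := QuotientGroup.mk' (Subgroup.upperCentralSeries G j)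
    have pm : ∀ g, g ∈ Subgroup.upperCentralSeries G j ↔ π g = 1 := fun g =>
      (QuotientGroup.eq_one_iff g).symm
    have pr : ∀ a b v, gam (j + 1) a b → π (D (a * v) (b * v)) = π (D a b) := by
      intro a b v e
      obtain ⟨g, hg⟩ := dr _ _ v e.1
      have := (pm _).1 (Subgroup.mem_upperCentralSeries_succ_iff.1 e.2 g)
      rw [commutatorElement_def] at this
      simp only [map_mul, map_inv] at this
      rw [hg, map_mul, map_mul, map_inv]
      rw [mul_inv_eq_one, mul_inv_eq_iff_eq_mul] at this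
      rw [← this]; group
    have key : ∀ a b c d, N (gam (j + 1)) a b c d → π (D a b) = π (D c d) := by
      intro a b c d hN
      induction hN with
      | g1 a b => rw [d0, d0]
      | g2 a b => rfl
      | @mul a b c d a' b' c' d' n1 n2 h1 h2 =>
        have r1 := n1.rows (hc _)
        have r2 := n2.rows (hc _)
        rw [dt _ (b * a'), dt (c * c') (d * c'), map_mul, map_mul, pr _ _ _ r1.1, pr _ _ _ r1.2,
          dl _ _ _ r2.1.1, dl _ _ _ r2.2.1, h1, h2]
    intro a b c d hN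
    have r := hN.rows (hc _)
    have k := key a b c d hN
    refine ⟨fun e => ⟨r.2.1, (pm _).2 (k ▸ (pm _).1 e.2)⟩, fun e =>
      ⟨he.trans (he.symm r.1.1) (he.trans e.1 r.2.1), (pm _).2 ?_⟩⟩
    rw [dt b a, dt a c, ds a b, map_mul, map_mul, map_inv, (pm _).1 e.2, k]; group
  have h0 : Reach (gam 0) := by
    have : ∀ k, Reach (gam k) → Reach (gam 0) := by
      intro k
      induction k with
      | zero => exact id
      | succ k ih => exact fun h1 => ih (h1.step (fun _ _ => id) (hc k) (hs k))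
    exact this d (((reach_sig hn).inter (reach_sig hn.op).unop).step (fun a b e => ⟨e, hG _⟩) (hc d)
      (step_self (hc d)))
  have eqF : ∀ a b, gam 0 a b → f * a * f = f * b * f := fun a b e => by
    have := e.2
    rw [Subgroup.upperCentralSeries_zero, Subgroup.mem_bot, hD] at this
    exact congrArg Subtype.val (hi (inv_mul_eq_one.1 this))
  refine reach_theta (k := m + 1 + (m + 1)) h0 fun a b e => theta_of _ _ _ le_rfl (KL_of ?_) (KR_of ?_)
  · exact fin_left (f := f) hn e.1.1 fun u => by simpa [mul_assoc] using eqF _ _ ((hc 0).ml u e)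
  · intro w hw
    have := fin_left (f := .op f) hn.op e.1.2 (fun u => MulOpposite.unop_injective (by
      simpa [mul_assoc] using eqF _ _ ((hc 0).mr u.unop e))) (.op w) hw.op
    simpa using congrArg MulOpposite.unop this

theorem main (S : Type u) [Semigroup S] (d : ℕ)
    (h : hcomm (fun _ : Fin (d + 1) => (⊤ : Con S)) = ⊥) :
    ∃ k, leftSeries S k = ⊥ ∧ rightSeries S k = ⊥ := by
  have hs : SN S d := by
    intro x hx he
    have hx' : x ∈ mat (fun _ : Fin (d + 1) => (⊤ : Con S)) := by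
      clear he
      induction hx with
      | e i a b => exact Subsemigroup.subset_closure (Or.inl ⟨i, a, b, trivial, rfl⟩)
      | r a b => exact Subsemigroup.subset_closure (Or.inr ⟨a, b, trivial, rfl⟩)
      | mul _ _ h1 h2 => exact Subsemigroup.mul_mem _ h1 h2
    have : hcomm (fun _ : Fin (d + 1) => (⊤ : Con S)) (x fun _ => true).1 (x fun _ => true).2 := by
      rw [hcomm, Con.coe_sInf]
      simp only [sInf_apply, iInf_Prop_eq, iInf_apply]
      rintro ⟨_, δ, hδ, rfl⟩
      exact hδ x hx' fun ε hε => he ε hε ▸ δ.refl _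
    rw [h] at this
    exact this
  rcases isEmpty_or_nonempty S with hS | ⟨⟨z⟩⟩
  · exact ⟨0, Con.ext fun a => isEmptyElim a, Con.ext fun a => isEmptyElim a⟩
  · obtain ⟨k, h1, h2⟩ := (reach_eq hs z).series
    exact ⟨k, le_bot_iff.1 fun a b e => h1 a b e, le_bot_iff.1 fun a b e => h2 a b e⟩

end Pool.Agent.H.MP_d3d931_al
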